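import Pool.Agent.H239R2.Flat.TFIN
import Pool.Agent.H239R2.Flat.LP
import Pool.Agent.H239R2.Flat.KC
import Pool.Agent.H239R2.Flat.FT1
import Pool.Agent.H239R2.Flat.FT2
import Pool.Agent.H239R2.Flat.SINC
import Pool.Agent.H239R2.Flat.LIFT
import Pool.Agent.H239R2.Flat.COEF
import Pool.Agent.H239R2.Flat.POIS
import Pool.Agent.H239R2.Flat.CHV
import Pool.Agent.H239R2.Flat.SUM1

set_option autoImplicit false

/-!
# MP_d2370c_gt: linear flatness for parallelotopes and for all bodies close to them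

Let `b 0, …, b (n-1)` be a basis of `ℝ^n`.

1. Let `K` be a lattice-free set which contains the parallelotope
   `x₀ + {Σ l_j b_j : |l_j| ≤ 1}` and is contained in `x₁ + {Σ l_j b_j : Σ l_j ^ 2 ≤ t ^ 2 n}`
   (`t` times the smallest ellipsoid around the parallelotope, translated arbitrarily). Then the
   lattice width of `K` is at most `36 t n`.
2. In particular every lattice-free parallelotope of `ℝ^n`, in any position with respect to the
   integer lattice, has lattice width at most `36 n`.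
3. The same for every lattice-free affine image of the unit ball of `ℓ_p^n`, for every `p ≥ 2`,
   with the same constant.
-/

namespace Pool.Agent.Results.MP_d2370c_gt.Parallelotopes

open Pool.Agent.H239R2.Flat

theorem main (n : ℕ) (hn : 0 < n) (b : Fin n → Fin n → ℝ) (hb : LinearIndependent ℝ b)
    (x₀ x₁ : Fin n → ℝ) (t : ℝ) (ht : 0 ≤ t) (K : Set (Fin n → ℝ))
    (hK₀ : ∀ l : Fin n → ℝ, (∀ j, |l j| ≤ 1) → x₀ + ∑ j, l j • b j ∈ K)
    (hK₁ : ∀ x ∈ K, ∃ l : Fin n → ℝ, ∑ j, l j ^ 2 ≤ t ^ 2 * n ∧ x = x₁ + ∑ j, l j • b j)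
    (hfree : ∀ z : Fin n → ℤ, (fun i => (z i : ℝ)) ∉ interior K) :
    ∃ y : Fin n → ℤ, y ≠ 0 ∧
      ∀ x ∈ K, ∀ w ∈ K, ∑ i, (y i : ℝ) * (x i - w i) ≤ 36 * t * n :=
  GA_of (TFIN_of KC_holds SINC_holds (POIS_of LIFT_holds COEF_holds)
    (CHV_of (FT2_of FT1_holds)) SUM1_holds) n hn b hb x₀ x₁ t ht K hK₀ hK₁ hfree

theorem result :
    ∀ (n : ℕ), 0 < n → ∀ b : Fin n → Fin n → ℝ, LinearIndependent ℝ b →
      (∀ (x₀ x₁ : Fin n → ℝ) (t : ℝ), 0 ≤ t → ∀ K : Set (Fin n → ℝ),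
        (∀ l : Fin n → ℝ, (∀ j, |l j| ≤ 1) → x₀ + ∑ j, l j • b j ∈ K) →
        (∀ x ∈ K, ∃ l : Fin n → ℝ, ∑ j, l j ^ 2 ≤ t ^ 2 * n ∧ x = x₁ + ∑ j, l j • b j) →
        (∀ z : Fin n → ℤ, (fun i => (z i : ℝ)) ∉ interior K) →
        ∃ y : Fin n → ℤ, y ≠ 0 ∧
          ∀ x ∈ K, ∀ w ∈ K, ∑ i, (y i : ℝ) * (x i - w i) ≤ 36 * t * n) ∧
      (∀ (x₀ : Fin n → ℝ) (K : Set (Fin n → ℝ)),
        K = {x | ∃ l : Fin n → ℝ, (∀ j, |l j| ≤ 1) ∧ x = x₀ + ∑ j, l j • b j} →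
        (∀ z : Fin n → ℤ, (fun i => (z i : ℝ)) ∉ interior K) →
        ∃ y : Fin n → ℤ, y ≠ 0 ∧
          ∀ x ∈ K, ∀ w ∈ K, ∑ i, (y i : ℝ) * (x i - w i) ≤ 36 * n) ∧
      (∀ (p : ℝ), 2 ≤ p → ∀ (x₀ : Fin n → ℝ) (K : Set (Fin n → ℝ)),
        K = {x | ∃ l : Fin n → ℝ, ∑ j, |l j| ^ p ≤ 1 ∧ x = x₀ + ∑ j, l j • b j} →
        (∀ z : Fin n → ℤ, (fun i => (z i : ℝ)) ∉ interior K) →
        ∃ y : Fin n → ℤ, y ≠ 0 ∧
          ∀ x ∈ K, ∀ w ∈ K, ∑ i, (y i : ℝ) * (x i - w i) ≤ 36 * n) := by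
  intro n hn b hb
  have hnR : (0:ℝ) < n := by exact_mod_cast hn
  refine ⟨fun x₀ x₁ t ht K hK₀ hK₁ hfree => main n hn b hb x₀ x₁ t ht K hK₀ hK₁ hfree, ?_, ?_⟩
  · intro x₀ K hK hfree
    obtain ⟨y, hy0, hy⟩ := main n hn b hb x₀ x₀ 1 zero_le_one K
      (fun l hl => by rw [hK]; exact ⟨l, hl, rfl⟩)
      (fun x hx => by
        rw [hK] at hx
        obtain ⟨l, hl, rfl⟩ := hx
        refine ⟨l, ?_, rfl⟩
        have h1 : ∑ j, l j ^ 2 ≤ ∑ _j : Fin n, (1:ℝ) :=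
          Finset.sum_le_sum fun j _ => (sq_le_one_iff_abs_le_one _).mpr (hl j)
        rw [Finset.sum_const, Finset.card_univ, Fintype.card_fin, nsmul_eq_mul, mul_one] at h1
        linarith) hfree
    exact ⟨y, hy0, fun x hx w hw => by simpa using hy x hx w hw⟩
  · intro p hp x₀ K hK hfree
    have hp0 : 0 < p := by linarith
    set c : ℝ := (n : ℝ) ^ (-(1 / p)) with hc
    have hc0 : 0 < c := Real.rpow_pos_of_pos hnR _
    have hcc : (n : ℝ) ^ (1 / p) * c = 1 := by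
      rw [hc, ← Real.rpow_add hnR, add_neg_cancel, Real.rpow_zero]
    obtain ⟨y, hy0, hy⟩ := main n hn (fun j => c • b j) (LP_indep b hb c hc0.ne') x₀ x₀ 1
      zero_le_one K
      (fun l hl => by
        rw [hK]
        refine ⟨fun j => c * l j, LP_cube hn p hp0 l hl, ?_⟩
        congr 1
        refine Finset.sum_congr rfl fun j _ => ?_
        rw [smul_smul, mul_comm])
      (fun x hx => by
        rw [hK] at hx
        obtain ⟨l, hl, rfl⟩ := hx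
        refine ⟨fun j => (n : ℝ) ^ (1 / p) * l j, LP_high hn p hp l hl, ?_⟩
        congr 1
        refine Finset.sum_congr rfl fun j _ => ?_
        rw [smul_smul]
        have e : (n : ℝ) ^ (1 / p) * l j * c = l j := by
          rw [mul_right_comm, hcc, one_mul]
        rw [e]) hfree
    exact ⟨y, hy0, fun x hx w hw => by simpa using hy x hx w hw⟩

end Pool.Agent.Results.MP_d2370c_gt.Parallelotopes
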